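import Pool.Agent.X308.S.EvenMain
import Pool.Agent.X308.P.Murre
import Pool.Agent.X163.MU.Defs

/-!
# Murre's conjectures (B), (C), (D) codimension by codimension
-/

set_option autoImplicit false

open CategoryTheory AlgebraicGeometry

universe u v w

namespace Pool.Agent.X163.MU

open Pool.Agent.H914 Pool.Agent.H914.VarClass Pool.Agent.H914.VarClass.Obj Pool.Agent.W492.BB
  Pool.Agent.W550.Corr Pool.Agent.TH133 Pool.Agent.X308.S Pool.Agent.Y148.BB

set_option linter.unusedSectionVars false

variable {k : Type u} [Field k] {𝒱 : VarClass k} {C : TheoryData.{u, v, 0} 𝒱 ℚ}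
  {K : Type w} [Field K] [hC : IsChowProj C]
  {H : WeilTheoryData.{u, v, w} C K} [hH : IsWeilProj H] {S S' T X Y Z W : 𝒱.Obj}

include hC hH

variable {π : ℕ → C.A (X.prod X)} {ρ : ℕ → C.A (Y.prod Y)}

theorem le_of_phantomsOn {P P' : ℕ → Cor C X} (h : IsCK H X P) (hT : NoRaising C P)
    {i : ℕ} (hph : PhantomsZeroOn H X i) (h' : IsCK H X P') (n : ℕ) :
    ckFil C P i n = ckFil C P' i n := by
  have hPm : ∀ i, P i ∈ cor0 C X := h.deg
  have hPm' : ∀ i, P' i ∈ cor0 C X := h'.deg
  have hact : ∀ (a b : Cor C X) (z : C.A X), actC C X (a * b) z = actC C X a (actC C X b z) :=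
    fun a b z => by rw [map_mul]; rfl
  have hent : ∀ a b, a ≠ b → ∀ z, z ∈ C.gr X i → actC C X (P a * P' b * P a) z = 0 := by
    intro a b hab z hz
    refine hph (P a * P' b * P a) ((cor0 C X).mul_mem ((cor0 C X).mul_mem (hPm a) (hPm' b))
      (hPm a)) ?_ (entry_cl h h' hab) z hz
    have h1 := diag_mul h hT (hPm' b) (by have := h'.mul_eq b b; rwa [if_pos rfl] at this) a
    exact h1
  -- expansion of an entry
  have hexp : ∀ (γ : Cor C X), γ ∈ cor0 C X → ∀ (a : ℕ) (y : C.A X),
      (∀ c, a < c → actC C X (P c) y = 0) →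
      actC C X (P a * γ) y = actC C X (P a * γ * P a) y := by
    intro γ hγ a y hy
    have h1 : actC C X (P a * γ) y = ∑ c ∈ Finset.range (2 * X.dim + 1 + (a + 1)),
        actC C X (P a * γ * P c) y := by
      have h2 : P a * γ = ∑ c ∈ Finset.range (2 * X.dim + 1 + (a + 1)), P a * γ * P c := by
        rw [← Finset.mul_sum, IsCK.sum_one h (by omega), mul_one]
      conv_lhs => rw [h2]
      rw [map_sum, LinearMap.sum_apply]
    rw [h1]
    apply Finset.sum_eq_single a
    · intro c _ hc
      rcases lt_or_gt_of_ne hc with h4 | h4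
      · rw [hT.mul_eq (H := H) hγ h4, map_zero, LinearMap.zero_apply]
      · rw [hact, hy c h4, map_zero]
    · intro h4
      exact absurd (Finset.mem_range.2 (by omega)) h4
  -- a class killed by the large `P c` is zero if all its leading components vanish
  have hlead : ∀ (N : ℕ) (y : C.A X), (∀ c, N ≤ c → actC C X (P c) y = 0) →
      ∀ (B : ℕ), (∀ a, B ≤ a → (∀ c, a < c → actC C X (P c) y = 0) → actC C X (P a) y = 0) →
      ∀ c, B ≤ c → actC C X (P c) y = 0 := by
    intro N
    induction N with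
    | zero => intro y hy B _ c _; exact hy c (Nat.zero_le c)
    | succ N ih =>
      intro y hy B hB c hc
      by_cases hBN : B ≤ N
      · refine ih y (fun c hc => ?_) B hB c hc
        rcases Nat.eq_or_lt_of_le hc with h5 | h5
        · rw [← h5]
          exact hB N hBN (fun c hc => hy c hc)
        · exact hy c h5
      · exact hy c (by omega)
  have hout : ∀ (y : C.A X) c, 2 * X.dim + 1 ≤ c → actC C X (P c) y = 0 := by
    intro y c hc
    have h1 : P c = 0 := h.out c (by omega)
    rw [h1, map_zero, LinearMap.zero_apply]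
  ext x
  rw [h.mem_ckFil, h'.mem_ckFil]
  constructor
  · rintro ⟨hx, hx1⟩
    refine ⟨hx, fun b hb => ?_⟩
    set y := actC C X (P' b) x with hy
    have hym : y ∈ C.gr X i := actC_mem (H := H) (hPm' b) hx
    -- `y` lies in the same step of the filtration of `P`
    have hy1 : ∀ c, 2 * i + 1 - n ≤ c → actC C X (P c) y = 0 := by
      apply hlead _ y (hout y)
      intro a ha ha'
      -- `P a y = P a P' b x`, and only the components of `x` of weight `< a` contribute
      have h1 : actC C X (P a) y = ∑ c ∈ Finset.range (2 * X.dim + 1 + (a + 1)),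
          actC C X (P a * P' b * P c) x := by
        have h2 : P a * P' b = ∑ c ∈ Finset.range (2 * X.dim + 1 + (a + 1)),
            P a * P' b * P c := by
          rw [← Finset.mul_sum, IsCK.sum_one h (by omega), mul_one]
        rw [hy, ← hact]
        conv_lhs => rw [h2]
        rw [map_sum, LinearMap.sum_apply]
      rw [h1]
      apply Finset.sum_eq_zero
      intro c _
      by_cases hc : 2 * i + 1 - n ≤ c
      · have h3 : actC C X (P c) x = 0 := hx1 c hc
        rw [hact, h3, map_zero]
      · rw [hT.mul_eq (H := H) (hPm' b) (by omega), map_zero, LinearMap.zero_apply]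
    have hyy : actC C X (P' b) y = y := by
      rw [hy, ← hact, h'.mul_eq, if_pos rfl]
    have hy2 : ∀ c, 0 ≤ c → actC C X (P c) y = 0 := by
      apply hlead _ y hy1
      intro a _ ha'
      have h1 : actC C X (P a) y = actC C X (P a * P' b) y := by rw [hact, hyy]
      by_cases hab : 2 * i + 1 - n ≤ a
      · exact hy1 a hab
      · rw [h1, hexp _ (hPm' b) a y ha', hent a b (by omega) y hym]
    have h1 : y = ∑ c ∈ Finset.range (2 * X.dim + 1), actC C X (P c) y := by
      rw [← LinearMap.sum_apply, ← map_sum, IsCK.sum_one h le_rfl, map_one]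
      rfl
    rw [Finset.sum_eq_zero (fun c _ => hy2 c (Nat.zero_le c))] at h1
    exact h1
  · rintro ⟨hx, hx1⟩
    refine ⟨hx, ?_⟩
    apply hlead _ x (hout x)
    intro a ha ha'
    have h1 : actC C X (P a) x = ∑ b ∈ Finset.range (2 * X.dim + 1),
        actC C X (P a * P' b) x := by
      have h2 : P a = ∑ b ∈ Finset.range (2 * X.dim + 1), P a * P' b := by
        rw [← Finset.mul_sum, IsCK.sum_one h' le_rfl, mul_one]
      conv_lhs => rw [h2]
      rw [map_sum, LinearMap.sum_apply]
    rw [h1]
    apply Finset.sum_eq_zero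
    intro b _
    by_cases hb : 2 * i + 1 - n ≤ b
    · have h3 : actC C X (P' b) x = 0 := hx1 b hb
      rw [hact, h3, map_zero]
    · rw [hexp _ (hPm' b) a x ha', hent a b (by omega) x hx]

lemma even_zeroOn (hE : EvenAlgebraic H X) {l : ℕ} (hP : PhantomsZeroOn H X l) (h : IsCK H X π)
    {m : ℕ} (hml : (l : ℤ) ≠ m) {x : C.A X} (hx : C.Deg l x) : C.act (π (2 * m)) x = 0 := by
  obtain ⟨n, a, b, hab, hd, hid⟩ := hE m
  set c : C.A (X.prod X) := ∑ i, C.ext (a i) (b i) with hc
  have hcm : c ∈ C.gr (X.prod X) X.dim := by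
    refine Submodule.sum_mem _ fun i _ => ?_
    have := ext_mem' (C := C) (hab i).1 (hab i).2
    rwa [sub_add_cancel] at this
  set q := π (2 * m) with hq
  have hqm : q ∈ C.gr (X.prod X) X.dim := h.deg _
  -- `c ∘ q ∘ c = c`
  have h1 : C.comp c (C.comp q c) = c := by
    have h2 : ∀ i j, C.comp (C.comp (C.ext (a i) (b i)) q) (C.ext (a j) (b j)) =
        if i = j then C.ext (a i) (b i) else 0 := by
      intro i j
      have h3 : HasDegree C (C.act q (b i) * a j) (if i = j then 1 else 0) := by
        have h4 : C.act q (b i) ∈ C.gr X m := act_deg hqm (hab i).2 (by ring)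
        obtain ⟨r, hr⟩ := exists_hasDegree (C := C) (x := C.act q (b i) * a j) (by
          have := C.mul_mem h4 (hab j).1
          rwa [add_sub_cancel] at this)
        have h5 : HasDegree C ((C.act q (b i) - b i) * a j) 0 := by
          apply hasDegree_zero_of_cl H
          · have := C.mul_mem (Submodule.sub_mem _ h4 (hab i).2) (hab j).1
            rwa [add_sub_cancel] at this
          · rw [map_mul, map_sub, cl_act H, hq, h.act_self (2 * m) _ (by
              have := H.cl_mem (hab i).2
              exact_mod_cast this), sub_self, zero_mul]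
        have h6 : HasDegree C (C.act q (b i) * a j) (if i = j then 1 else 0) := by
          intro Y
          have e : C.act q (b i) * a j = (C.act q (b i) - b i) * a j + a j * b i := by
            rw [sub_mul, ch_comm C (b i) (a j), sub_add_cancel]
          have h7 := hd j i Y
          have h8 := h5 Y
          change C.push (snd X Y) (C.pull (fst X Y) (a j * b i)) = _ ∧
            C.push (fst Y X) (C.pull (snd Y X) (a j * b i)) = _ at h7
          rw [e, map_add, map_add, map_add, map_add, h7.1, h8.1, h7.2, h8.2, zero_smul, zero_add]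
          constructor <;> simp only [eq_comm]
        exact h6
      rw [ext_comp, comp_ext_ext h3]
      split_ifs with hij
      · rw [one_smul, hij]
      · rw [zero_smul]
    rw [← comp_assoc]
    conv_lhs => rw [hc]
    rw [comp_sum_left, comp_sum_left]
    have h3 : ∀ i, C.comp (C.comp (C.ext (a i) (b i)) q) (∑ j, C.ext (a j) (b j)) =
        C.ext (a i) (b i) := by
      intro i
      rw [comp_sum_right]
      simp only [h2]
      rw [Finset.sum_ite_eq]
      simp
    simp only [h3]
    exact hc.symm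
  have hqq : C.comp q q = q := h.idem _
  -- the phantom
  set p := C.comp q (C.comp c q) with hp
  have hpm : p ∈ C.gr (X.prod X) X.dim :=
    comp_deg hqm (comp_deg hcm hqm (j := X.dim) (by ring)) (by ring)
  have hqp : C.comp q p = p := by rw [hp, ← comp_assoc, hqq]
  have hpq : C.comp p q = p := by rw [hp, comp_assoc, comp_assoc, hqq]
  have hpp : C.comp p p = p := by
    have e : C.comp p p = C.comp q (C.comp (C.comp c (C.comp q c)) q) := by
      rw [hp]
      simp only [comp_assoc]
      rw [← comp_assoc C q q, hqq]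
    rw [e, h1]
  have h2 := hP (q - p) (Submodule.sub_mem _ hqm hpm) (by
    rw [sub_comp, comp_sub, comp_sub, hqq, hqp, hpq, hpp, sub_self, sub_zero]) (by
    apply cl_zero_of
    intro r y hy
    rw [map_sub, H.act_sub, hp, actH_comp, actH_comp, hq, h.actH_eq (2 * m) r hy]
    split_ifs with hr
    · rw [hid y (by rw [hr] at hy; exact_mod_cast hy), h.actH_eq (2 * m) r hy, if_pos hr, sub_self]
    · rw [TheoryData.act_map_zero, TheoryData.act_map_zero, sub_self]) x hx
  rw [C.act_sub, sub_eq_zero] at h2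
  have h3 : C.act (π (2 * m)) x = C.act p x := h2
  rw [h3, hp, C.act_comp, C.act_comp]
  have h4 : C.act q x ∈ C.gr X l := act_deg hqm hx (by ring)
  have h5 : C.act c (C.act q x) = 0 := by
    rw [hc, act_sum]
    apply Finset.sum_eq_zero
    intro i _
    exact act_ext_zero_of_lt (i := (X.dim : ℤ) - m + l) (C.mul_mem (hab i).1 h4) (by omega)
  rw [h5, TheoryData.act_map_zero]

theorem detect_of_phantomsOn (hS : SurfaceProperties H) (h : IsCK H X π)
    (hw : ∀ w : ℕ, π w ∈ wt H X w) (hE : EvenAlgebraic H X) {l : ℕ} (hP : PhantomsZeroOn H X l) :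
    CurvesDetectOn H X l := by
  intro x hx hcl hcu
  rw [sum_act' h x]
  apply Finset.sum_eq_zero
  intro w _
  by_cases h1 : 2 * l < w
  · exact wt_B0 (w := w) (l := l) (by exact_mod_cast h1) (hw w) hx
  by_cases h2 : w = 2 * l
  · exact wt_D hS (w := w) (l := l) (by exact_mod_cast h2) (hw w) hx hcl
  by_cases h3 : w + 1 = 2 * l
  · exact wt_curves (w := w) (l := l) (by omega) (hw w) hcu
  rcases Nat.even_or_odd' w with ⟨m, hm | hm⟩
  · rw [hm]
    exact even_zeroOn hE hP h (by omega) hx
  · exact wt_B2 (w := w) (l := l) (by omega) (hw w) hx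

theorem phantoms_of_detectOn (hS : SurfaceProperties H) (h : IsCK H X π)
    (hw : ∀ w : ℕ, π w ∈ wt H X w) {l : ℕ} (hD : CurvesDetectOn H X l) :
    PhantomsZeroOn H X l := by
  intro p hp hpp hcl
  intro x hx
  set y := C.act p x with hy
  have hym : y ∈ C.gr X l := act_deg hp hx (by ring)
  have hycl : H.cl y = 0 := by rw [hy, cl_act H, hcl, TheoryData.act_zero]
  have hpy : C.act p y = y := by rw [hy, ← C.act_comp, hpp]
  apply hD y hym hycl
  intro T Γ hT hΓ
  obtain ⟨ρ, h', -, hw'⟩ := exists_selfDual_CK (H := H) hS (dg_mem_of_curve (C := C) hT)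
  have hDm : C.comp p Γ ∈ C.gr (X.prod T) (X.dim + (1 - l)) :=
    comp_deg hp hΓ (by ring)
  have hDcl : H.cl (C.comp p Γ) = 0 := by
    apply cl_zero_of
    intro m a ha
    rw [actH_comp, hcl, TheoryData.act_zero, TheoryData.act_map_zero]
  have e1 : C.act Γ y = C.act (C.comp p Γ) y := by rw [C.act_comp, hpy]
  rw [e1]
  have hm1 : ∀ z : C.A X, z ∈ C.gr X l → C.act (C.comp p Γ) z ∈ C.gr T 1 := fun z hz =>
    act_deg hDm hz (by ring)
  rw [sum_act' h' (C.act (C.comp p Γ) y)]
  apply Finset.sum_eq_zero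
  intro w' hw2
  rw [Finset.mem_range, hT] at hw2
  by_cases h0 : w' = 0
  · exact wt_B1 hS (w := w') (l := 1) (by rw [h0]; norm_num) (hw' w') (hm1 y hym)
  by_cases h2 : w' = 2
  · refine wt_D hS (w := w') (l := 1) (by rw [h2]; norm_num) (hw' w') (hm1 y hym) ?_
    rw [cl_act H, hDcl, TheoryData.act_zero]
  have h1 : w' = 1 := by omega
  conv_lhs => rw [sum_act' h y]
  rw [act_map_sum, act_map_sum]
  apply Finset.sum_eq_zero
  intro w _
  by_cases h3 : 2 * l < w
  · rw [wt_B0 (w := w) (l := l) (by exact_mod_cast h3) (hw w) hym, TheoryData.act_map_zero,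
      TheoryData.act_map_zero]
  by_cases h4 : w = 2 * l
  · rw [wt_D hS (w := w) (l := l) (by exact_mod_cast h4) (hw w) hym hycl,
      TheoryData.act_map_zero, TheoryData.act_map_zero]
  rw [← C.act_comp, ← C.act_comp, ← comp_assoc]
  by_cases h5 : w + 1 = 2 * l
  · rw [wt_odd_zero hS (s := 1 - l) (w := w) (w' := w') (by omega)
      ⟨(l : ℤ) - 1, by omega⟩ hDm hDcl (hw w) (hw' w'), TheoryData.act_zero]
  · rw [wt_raise hS (s := 1 - l) (w := w) (w' := w') (by omega) hDm (hw w) (hw' w'),
      TheoryData.act_zero]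
/-- If phantoms do not act as zero on `CH^l(X)` then some phantom which is an endomorphism of one
`h^a` acts as the identity on a non-zero class in `CH^l(X)`. -/
lemma exists_phantomOn {P : ℕ → Cor C X} (h : IsCK H X P) (hT : NoRaising C P) {l : ℕ}
    (hph : ¬ PhantomsZeroOn H X l) :
    ∃ (a : ℕ) (e : Cor C X) (y : C.A X), l ≤ X.dim ∧ 1 ≤ l ∧ a ≤ 2 * X.dim ∧ e ∈ cor0 C X ∧
      e * e = e ∧ H.cl (X := X.prod X) e = 0 ∧ P a * e = e ∧ e * P a = e ∧ y ∈ C.gr X l ∧ y ≠ 0 ∧
      actC C X e y = y := by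
  unfold PhantomsZeroOn at hph
  push Not at hph
  obtain ⟨p, hp, hpp, hcl, z, hz, hne⟩ := hph
  obtain ⟨a, e, y, ha, he, hee, hcle, hPe, heP, hy, hy0, hey⟩ :=
    exists_entry h hT (p := p) hp hpp hcl hz hne
  refine ⟨a, e, y, ?_, ?_, ha, he, hee, hcle, hPe, heP, hy, hy0, hey⟩
  · by_contra hcon
    exact hy0 (hC.gr_top X l y hy (by omega))
  · by_contra hcon
    have hl : l = 0 := by omega
    subst hl
    apply hy0
    apply Pool.Agent.X308.S.gr_zero_eq (H := H) (by exact_mod_cast hy)
    rw [← hey]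
    exact cl_act_zero hcle y

/-- Independence of one step of the filtration of `CH^l(X)` implies that phantoms act as zero. -/
theorem phantomsOn_of_step {P : ℕ → Cor C X} (h : IsCK H X P) (hT : NoRaising C P) {l n : ℕ}
    (hn : 2 * l < n + 2 * X.dim ∧ n ≤ 2 * l)
    (hind : ∀ π π', IsCK H X π → IsCK H X π' → ckFil C π l n = ckFil C π' l n) :
    PhantomsZeroOn H X l := by
  by_contra hph
  obtain ⟨a, e, y, hl, hl1, ha, he, hee, hcle, hPe, heP, hy, hy0, hey⟩ :=
    exists_phantomOn h hT hph
  have hPy := act_of_phantom h hPe hey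
  obtain ⟨hn1, hn2⟩ := hn
  by_cases hac : 2 * l + 1 - n ≤ a
  · have h0a : 0 ≠ a := by omega
    have hck := IsCK.move h he hee hcle h0a hPe heP ha (by omega)
    have h1 := hind _ _ hck h
    have h2 : y ∈ ckFil C P l n := by
      rw [← h1, hck.mem_ckFil]
      refine ⟨hy, fun j hj => ?_⟩
      have h3 := move_act h h0a hPe hey j
      rw [if_neg (by omega)] at h3
      exact h3
    rw [h.mem_ckFil] at h2
    have h3 := h2.2 a hac
    have h4 := hPy a
    rw [if_pos rfl] at h4
    exact hy0 (h4.symm.trans h3)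
  · have hja : 2 * l + 1 - n ≠ a := by omega
    have hck := IsCK.move h he hee hcle hja hPe heP ha (by omega)
    have h1 := hind _ _ h hck
    have h2 : y ∈ ckFil C P l n := by
      rw [h.mem_ckFil]
      refine ⟨hy, fun j hj => ?_⟩
      have h3 := hPy j
      rw [if_neg (by omega)] at h3
      exact h3
    rw [h1, hck.mem_ckFil] at h2
    have h3 := h2.2 (2 * l + 1 - n) le_rfl
    have h4 := move_act h hja hPe hey (2 * l + 1 - n)
    rw [if_pos rfl] at h4
    exact hy0 (h4.symm.trans h3)

theorem murreCAt_of_phantomsOn {P : ℕ → Cor C X} (h : IsCK H X P) (hT : NoRaising C P) {l : ℕ}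
    (hph : PhantomsZeroOn H X l) : MurreCAt H X l := by
  intro π π' hπ hπ' n
  rw [← le_of_phantomsOn h hT hph hπ n]
  exact le_of_phantomsOn h hT hph hπ' n

theorem phantomsOn_of_murreCAt {P : ℕ → Cor C X} (h : IsCK H X P) (hT : NoRaising C P) {l : ℕ}
    (hX : MurreCAt H X l) : PhantomsZeroOn H X l := by
  by_cases hd : X.dim = 0
  · by_contra hph
    obtain ⟨a, e, y, hl, hl1, -⟩ := exists_phantomOn h hT hph
    omega
  · exact phantomsOn_of_step h hT (n := 2 * l) ⟨by omega, le_rfl⟩
      (fun π π' hπ hπ' => hX π π' hπ hπ' _)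

theorem phantomsOn_of_B1 {P : ℕ → Cor C X} (h : IsCK H X P) (hT : NoRaising C P) {l : ℕ}
    (hB : ckFil C P l (l + 1) = ⊥) (hX : MurreB1At H X l) : PhantomsZeroOn H X l := by
  by_contra hph
  obtain ⟨a, e, y, hl, hl1, ha, he, hee, hcle, hPe, heP, hy, hy0, hey⟩ :=
    exists_phantomOn h hT hph
  have hPy := act_of_phantom h hPe hey
  have hal : l ≤ a := by
    by_contra hcon
    have h1 : y ∈ ckFil C P l (l + 1) := by
      rw [h.mem_ckFil]
      refine ⟨hy, fun j hj => ?_⟩
      have h3 := hPy j
      rw [if_neg (by omega)] at h3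
      exact h3
    rw [hB] at h1
    exact hy0 ((Submodule.mem_bot _).1 h1)
  have h0a : 0 ≠ a := by omega
  have hck := IsCK.move h he hee hcle h0a hPe heP ha (by omega)
  have h2 : y ∈ ckFil C (mv P e a 0) l (l + 1) := by
    rw [hck.mem_ckFil]
    refine ⟨hy, fun j hj => ?_⟩
    have h3 := move_act h h0a hPe hey j
    rw [if_neg (by omega)] at h3
    exact h3
  rw [hX _ hck] at h2
  exact hy0 ((Submodule.mem_bot _).1 h2)

theorem phantomsOn_of_D {P : ℕ → Cor C X} (h : IsCK H X P) (hT : NoRaising C P) {l : ℕ}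
    (hD : ∀ x : C.A X, x ∈ ckFil C P l 1 ↔ C.Deg l x ∧ H.cl x = 0)
    (hX : MurreDAt H X l) : PhantomsZeroOn H X l := by
  by_contra hph
  obtain ⟨a, e, y, hl, hl1, ha, he, hee, hcle, hPe, heP, hy, hy0, hey⟩ :=
    exists_phantomOn h hT hph
  have hPy := act_of_phantom h hPe hey
  have hcly : H.cl y = 0 := by
    rw [← hey]
    exact cl_act_zero hcle y
  have h1 : y ∈ ckFil C P l 1 := (hD y).2 ⟨hy, hcly⟩
  rw [h.mem_ckFil] at h1
  have hal : a < 2 * l := by
    by_contra hcon
    have h2 := h1.2 a (by omega)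
    have h3 := hPy a
    rw [if_pos rfl] at h3
    exact hy0 (h3.symm.trans h2)
  have hja : 2 * l ≠ a := by omega
  have hck := IsCK.move h he hee hcle hja hPe heP ha (by omega)
  have h2 := (hX _ hck y).2 ⟨hy, hcly⟩
  rw [hck.mem_ckFil] at h2
  have h3 := h2.2 (2 * l) (by omega)
  have h4 := move_act h hja hPe hey (2 * l)
  rw [if_pos rfl] at h4
  exact hy0 (h4.symm.trans h3)

/-- If one decomposition has no weight-raising endomorphisms and satisfies (B) and (D) in codimension
`l`, then the conjectures (B), (C), (D) in codimension `l` for all decompositions are equivalent. -/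
theorem tfae_murreOn {P : ℕ → Cor C X} (h : IsCK H X P) (hT : NoRaising C P) {l : ℕ}
    (hB0 : ckFil C P l 0 = C.gr X l) (hB1 : ckFil C P l (l + 1) = ⊥)
    (hD : ∀ x : C.A X, x ∈ ckFil C P l 1 ↔ C.Deg l x ∧ H.cl x = 0) :
    List.TFAE [MurreB0At H X l ∧ MurreB1At H X l, MurreB1At H X l, MurreCAt H X l,
      MurreDAt H X l, PhantomsZeroOn H X l] := by
  tfae_have 1 → 2 := fun h => h.2
  tfae_have 2 → 5 := phantomsOn_of_B1 h hT hB1
  tfae_have 5 → 3 := murreCAt_of_phantomsOn h hT
  tfae_have 3 → 4 := by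
    intro hX π hπ x
    rw [hX π P hπ h 1]
    exact hD x
  tfae_have 4 → 5 := phantomsOn_of_D h hT hD
  tfae_have 3 → 1 := by
    intro hX
    refine ⟨fun π hπ => ?_, fun π hπ => ?_⟩
    · rw [hX π P hπ h 0]
      exact hB0
    · rw [hX π P hπ h (l + 1)]
      exact hB1
  tfae_finish

/-- **Surface type, algebraic even cohomology, one codimension.** -/
theorem tfae_evenOn (hS : SurfaceProperties H) (hX : dg C X ∈ throughSurfaces C X)
    (hE : EvenAlgebraic H X) (l : ℕ) :
    List.TFAE [MurreB0At H X l ∧ MurreB1At H X l, MurreB1At H X l, MurreCAt H X l,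
      MurreDAt H X l, PhantomsZeroOn H X l, CurvesDetectOn H X l] := by
  obtain ⟨π, h, -, hw⟩ := exists_selfDual_CK (H := H) hS hX
  have h1 := tfae_murreOn h (noRaising_of_wt hS hw) (B0_of_wt h hw l) (B1_of_wt hS h hw l)
    (D_of_wt hS h hw l)
  tfae_have 1 ↔ 5 := h1.out 0 4
  tfae_have 2 ↔ 5 := h1.out 1 4
  tfae_have 3 ↔ 5 := h1.out 2 4
  tfae_have 4 ↔ 5 := h1.out 3 4
  tfae_have 5 → 6 := detect_of_phantomsOn hS h hw hE
  tfae_have 6 → 5 := phantoms_of_detectOn hS h hw
  tfae_finish

end Pool.Agent.X163.MU
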