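import Pool.Agent.X308.P.MurreDefs

/-!
# Murre's conjectures (B) and (D) in one codimension for a given decomposition: definitions
-/

set_option autoImplicit false

universe u v w

namespace Pool.Agent.X163.MU

open Pool.Agent.H914 Pool.Agent.W492.BB Pool.Agent.TH133

variable {k : Type u} [Field k] {𝒱 : VarClass k} {C : TheoryData.{u, v, 0} 𝒱 ℚ} {Y : 𝒱.Obj}

/-- `F^m CH^i(Y) = CH^i(Y)` for the filtration given by `π`. -/
def IsAll (π : ℕ → C.A (Y.prod Y)) (i m : ℕ) : Prop := ∀ x : C.A Y, C.Deg i x → x ∈ ckFil C π i m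

/-- `F^m CH^i(Y) = 0` for the filtration given by `π`. -/
def IsZero (π : ℕ → C.A (Y.prod Y)) (i m : ℕ) : Prop := ∀ x : C.A Y, x ∈ ckFil C π i m → x = 0

/-- `F^1 CH^i(Y) = ker (cl)` for the filtration given by `π`. -/
def IsKer {K : Type w} [Field K] (H : WeilTheoryData.{u, v, w} C K) (π : ℕ → C.A (Y.prod Y))
    (i : ℕ) : Prop := ∀ x : C.A Y, x ∈ ckFil C π i 1 ↔ C.Deg i x ∧ H.cl x = 0

end Pool.Agent.X163.MU
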