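import Pool.Agent.X308.P.Murre
import Pool.Agent.X163.MU.ThreeDefs

/-!
# Murre's conjectures (B) and (D) for threefolds: what is unconditional
-/

set_option autoImplicit false

open CategoryTheory AlgebraicGeometry

universe u v w

namespace Pool.Agent.X163.MU

open Pool.Agent.H914 Pool.Agent.H914.VarClass Pool.Agent.H914.VarClass.Obj Pool.Agent.W492.BB
  Pool.Agent.W550.Corr Pool.Agent.TH133 Pool.Agent.Y148.BB Pool.Agent.X308.S Pool.Agent.X308.P

set_option linter.unusedSectionVars false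

variable {k : Type u} [Field k] {𝒱 : VarClass k} {C : TheoryData.{u, v, 0} 𝒱 ℚ} {K : Type w}
  [Field K] [hC : IsChowProj C]
  {H : WeilTheoryData.{u, v, w} C K} [hH : IsWeilProj H] {S S' D D' T U X Y Z W : 𝒱.Obj}
  {π : ℕ → C.A (Y.prod Y)}

include hC hH

lemma three_B0 (hP : DivisorProperties H) (h : IsMurreType H Y π) (hY : Y.dim = 3) {i : ℕ}
    {x : C.A Y} (hx : x ∈ C.gr Y i) {w : ℕ} (hw : 2 * i < w) : C.act (π w) x = 0 := by
  by_cases hw6 : 6 < w
  · rw [h.ck.out w (by omega), TheoryData.act_zero]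
  by_cases hi3 : 3 < i
  · omega
  interval_cases i
  · exact proj_codim_zero h.ck (by omega) (by exact_mod_cast hx)
  · exact proj_codim_one hP h.ck (by omega) (by omega) (by exact_mod_cast hx)
  · have hx' : x ∈ C.gr Y ((Y.dim : ℤ) - 1) := by
      rw [hY]; norm_num; exact_mod_cast hx
    by_cases h5 : w = 5
    · exact proj_last_one h (by omega) hx'
    · exact proj_last h (by omega) (by omega) hx'
  · omega

lemma three_D (hP : DivisorProperties H) (h : IsMurreType H Y π) (hY : Y.dim = 3) {i : ℕ}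
    (hi : i ≠ 2) {x : C.A Y} (hx : x ∈ C.gr Y i) (hx0 : H.cl x = 0) :
    C.act (π (2 * i)) x = 0 := by
  by_cases hi3 : 3 < i
  · rw [h.ck.out (2 * i) (by omega), TheoryData.act_zero]
  interval_cases i
  · rw [Pool.Agent.X308.S.gr_zero_eq (H := H) (by exact_mod_cast hx) hx0, TheoryData.act_map_zero]
  · exact proj_pic hP h.ck (by omega) (by exact_mod_cast hx) hx0
  · exact absurd rfl hi
  · exact proj_last_hom h (by omega) (by rw [hY]; exact_mod_cast hx) hx0

lemma three_B1 (h : IsMurreType H Y π) (hY : Y.dim = 3) {i : ℕ} (hi : i ≠ 3) {x : C.A Y}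
    (hx : x ∈ C.gr Y i) {w : ℕ} (hw : w < i) : C.act (π w) x = 0 := by
  by_cases hi3 : 3 < i
  · rw [zero_of_top hx (by omega), TheoryData.act_map_zero]
  by_cases hw0 : w = 0
  · rw [hw0]
    exact proj_zero h (by omega) hx
  by_cases hw1 : w = 1
  · rw [hw1]
    exact proj_one h (by omega) hx
  · omega

/-- `F^0 CH^i = CH^i` for threefolds. -/
theorem three_zero (hP : DivisorProperties H) (h : IsMurreType H Y π) (hY : Y.dim = 3) (i : ℕ)
    (x : C.A Y) (hx : C.Deg i x) : x ∈ ckFil C π i 0 := by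
  rw [h.ck.mem_ckFil]
  exact ⟨hx, fun w hw => three_B0 hP h hY hx (by omega)⟩

/-- `F^(i+1) CH^i = 0` for threefolds, `i ≠ 3`. -/
theorem three_top (h : IsMurreType H Y π) (hY : Y.dim = 3) (i : ℕ) (hi : i ≠ 3)
    (x : C.A Y) (hx : x ∈ ckFil C π i (i + 1)) : x = 0 := by
  rw [h.ck.mem_ckFil] at hx
  rw [Pool.Agent.X308.S.sum_act h.ck x]
  apply Finset.sum_eq_zero
  intro w _
  by_cases hw : w < i
  · exact three_B1 h hY hi hx.1 hw
  · exact hx.2 w (by omega)

/-- `F^1 CH^i = ker (cl)` for threefolds, `i ≠ 2`. -/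
theorem three_one (hP : DivisorProperties H) (h : IsMurreType H Y π) (hY : Y.dim = 3) (i : ℕ)
    (hi : i ≠ 2) (x : C.A Y) : x ∈ ckFil C π i 1 ↔ C.Deg i x ∧ H.cl x = 0 := by
  refine ⟨fun hx => ⟨((h.ck.mem_ckFil _ _ _).1 hx).1, cl_of_mem_F1 h.ck hx⟩, fun hx => ?_⟩
  rw [h.ck.mem_ckFil]
  refine ⟨hx.1, fun w hw => ?_⟩
  by_cases h3 : 2 * i < w
  · exact three_B0 hP h hY hx.1 h3
  · obtain rfl : w = 2 * i := by omega
    exact three_D hP h hY hi hx.1 hx.2

/-- `F^4 CH^3 = 0` makes `π 2` act as zero on zero-cycles. -/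
theorem zero_of_top3 (h : IsMurreType H Y π) (h1 : ∀ x : C.A Y, x ∈ ckFil C π 3 4 → x = 0) :
    ActsAsZeroOn C (π 2) 3 := by
  intro z hz
  apply h1
  rw [h.ck.mem_ckFil]
  refine ⟨proj_mem h.ck 2 hz, fun w hw => ?_⟩
  rw [← C.act_comp, h.ck.orth 2 w (by omega), TheoryData.act_zero]

/-- **Threefolds.** -/
theorem tfae_three (hP : DivisorProperties H) (h : IsMurreType H Y π) (hY : Y.dim = 3)
    (hBS : BlochSrinivas C Y) :
    List.TFAE [∀ x : C.A Y, x ∈ ckFil C π 3 4 → x = 0,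
      ActsAsZeroOn C (π 2) 3, ThroughDim C 2 (π 2), ∀ i : ℕ, MurreBD H π i] := by
  tfae_have 1 → 2 := zero_of_top3 h
  tfae_have 2 → 3 := by
    intro h1
    have h3 := hBS (π 2) (h.ck.deg 2) (fun z hz => h1 z (by rw [hY] at hz; exact_mod_cast hz))
    rw [hY] at h3
    exact h3
  tfae_have 3 → 4 := fun h2 i => threefold_BD hP h h2 hY i
  tfae_have 4 → 1 := fun h4 => (h4 3).top
  tfae_finish

/-- The form used for (B). -/
theorem three_B (hP : DivisorProperties H) (h : IsMurreType H Y π) (hY : Y.dim = 3) :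
    (∀ i : ℕ, IsAll π i 0 ∧ (i ≠ 3 → IsZero π i (i + 1))) ∧
    (BlochSrinivas C Y → (IsZero π 3 4 ↔ ThroughDim C 2 (π 2)) ∧
      (IsZero π 3 4 → ∀ i : ℕ, IsKer H π i)) :=
  ⟨fun i => ⟨three_zero hP h hY i, three_top h hY i⟩, fun hBS =>
    ⟨(tfae_three hP h hY hBS).out 0 2, fun h4 i =>
      ((show ∀ i : ℕ, MurreBD H π i from ((tfae_three hP h hY hBS).out 0 3).1 h4) i).one⟩⟩

/-- The form used for (D). -/
theorem three_Dform (hP : DivisorProperties H) (hπ : IsMurreType H Y π) :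
    (ThroughDim C 2 (π 2) → ∀ i : ℕ, i + 1 = Y.dim → IsKer H π i) ∧
    (Y.dim = 3 → (∀ i : ℕ, i ≠ 2 → IsKer H π i) ∧
      (BlochSrinivas C Y → IsZero π 3 4 → ∀ i : ℕ, IsKer H π i)) :=
  ⟨fun h2 _ hi => fun x => (one_cycles hP hπ h2 hi x).2,
    fun hY => ⟨fun i hi => three_one hP hπ hY i hi, fun hBS h4 => ((three_B hP hπ hY).2 hBS).2 h4⟩⟩

end Pool.Agent.X163.MU
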